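import Pool.Agent.helper7.BQ.Spec
import Pool.Agent.helper85.TG.VA1

set_option autoImplicit false

namespace Pool.Agent.BQ

open Finset ArithmeticFunction MeasureTheory
open Pool.Agent.helper74.TG (ee gb)
open Pool.Agent.CH (nit ph mu2 DPb BLb eU PP dB)

private lemma MOM_int (n : ℤ) : ∫ α in (0 : ℝ)..1, ee ((n : ℝ) * α) = if n = 0 then 1 else 0 := by
  by_cases h : n = 0
  · subst h
    rw [if_pos rfl]
    have e : ∀ α : ℝ, ee (((0 : ℤ) : ℝ) * α) = 1 := by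
      intro α
      rw [Int.cast_zero, zero_mul]
      unfold ee
      simp
    simp_rw [e]
    simp
  · rw [if_neg h]
    have hn : (n : ℂ) ≠ 0 := by exact_mod_cast h
    have hc : (n : ℂ) * (2 * Real.pi * Complex.I) ≠ 0 :=
      mul_ne_zero hn Complex.two_pi_I_ne_zero
    have e : ∀ α : ℝ, ee ((n : ℝ) * α) =
        Complex.exp (((n : ℂ) * (2 * Real.pi * Complex.I)) * (α : ℂ)) := by
      intro α
      unfold ee
      congr 1
      push_cast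
      ring
    simp_rw [e]
    rw [integral_exp_mul_complex hc]
    simp [Complex.exp_int_mul_two_pi_mul_I]

/-- the coefficient of the pair `w` -/
private noncomputable def MOM_c (x B : ℕ) (w : ℕ × ℕ) : ℝ :=
  Real.log w.1 * Real.log w.2 *
    #((Ico (0 : ℤ) (32 * (x : ℤ) ^ 2)).filter fun z : ℤ =>
      (z < 8 * (w.1 : ℤ) ^ 2 ∧ 8 * (w.1 : ℤ) ^ 2 ≤ z + B) ∧
      (z < 8 * (w.2 : ℤ) ^ 2 ∧ 8 * (w.2 : ℤ) ^ 2 ≤ z + B))

/-- the frequency of the pair `w` -/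
private def MOM_d (w : ℕ × ℕ) : ℤ := 8 * (w.1 : ℤ) ^ 2 - 8 * (w.2 : ℤ) ^ 2

private lemma MOM_sq (x B : ℕ) (z : ℤ) (α : ℝ) : ((‖Tw x B z α‖ ^ 2 : ℝ) : ℂ) =
    ∑ w ∈ (Pr x) ×ˢ (Pr x), (if (z < 8 * (w.1 : ℤ) ^ 2 ∧ 8 * (w.1 : ℤ) ^ 2 ≤ z + B) ∧
      (z < 8 * (w.2 : ℤ) ^ 2 ∧ 8 * (w.2 : ℤ) ^ 2 ≤ z + B) then
      ((Real.log w.1 * Real.log w.2 : ℝ) : ℂ) * ee ((MOM_d w : ℝ) * α) else 0) := by
  have h1 : ((‖Tw x B z α‖ ^ 2 : ℝ) : ℂ) = Tw x B z α * (starRingEnd ℂ) (Tw x B z α) := by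
    rw [Complex.mul_conj, Complex.normSq_eq_norm_sq]
  rw [h1]
  unfold Tw
  rw [map_sum, Finset.sum_mul_sum, Finset.sum_product]
  rw [Finset.sum_filter]
  refine Finset.sum_congr rfl fun p _ => ?_
  by_cases hp : z < 8 * (p : ℤ) ^ 2 ∧ 8 * (p : ℤ) ^ 2 ≤ z + B
  · rw [if_pos hp, Finset.sum_filter]
    refine Finset.sum_congr rfl fun q _ => ?_
    by_cases hq : z < 8 * (q : ℤ) ^ 2 ∧ 8 * (q : ℤ) ^ 2 ≤ z + B
    · rw [if_pos hq, if_pos ⟨hp, hq⟩]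
      rw [map_mul, Complex.conj_ofReal, ← Pool.Agent.helper74.TG.h85_ee_neg]
      have e : ee ((MOM_d (p, q) : ℝ) * α) = ee (8 * (p : ℝ) ^ 2 * α) * ee (-(8 * (q : ℝ) ^ 2 * α)) := by
        rw [← Pool.Agent.helper74.TG.h85_ee_add]
        congr 1
        unfold MOM_d
        push_cast
        ring
      rw [e]
      push_cast
      ring
    · rw [if_neg hq, if_neg (fun h => hq h.2)]
  · rw [if_neg hp]
    symm
    refine Finset.sum_eq_zero fun q _ => ?_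
    rw [if_neg (fun h => hp h.1)]

private lemma MOM_UT (x B : ℕ) (α : ℝ) : ((UT x B α : ℝ) : ℂ) =
    ∑ w ∈ (Pr x) ×ˢ (Pr x), ((MOM_c x B w : ℝ) : ℂ) * ee ((MOM_d w : ℝ) * α) := by
  unfold UT
  rw [Complex.ofReal_sum]
  simp_rw [MOM_sq]
  rw [Finset.sum_comm]
  refine Finset.sum_congr rfl fun w _ => ?_
  rw [← Finset.sum_filter, Finset.sum_const, nsmul_eq_mul]
  unfold MOM_c
  push_cast
  ring

private lemma MOM_c_le (x B : ℕ) (hx : 1 ≤ x) (w : ℕ × ℕ) (hw : w ∈ (Pr x) ×ˢ (Pr x)) :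
    0 ≤ MOM_c x B w ∧ MOM_c x B w ≤ Real.log (2 * x) ^ 2 * B ∧
      (¬ |8 * (w.1 : ℤ) ^ 2 - 8 * (w.2 : ℤ) ^ 2| < (B : ℤ) → MOM_c x B w = 0) := by
  obtain ⟨h1, h2⟩ := Finset.mem_product.1 hw
  unfold Pr at h1 h2
  obtain ⟨h1a, h1b⟩ := Finset.mem_Ioc.1 (Finset.mem_filter.1 h1).1
  obtain ⟨h2a, h2b⟩ := Finset.mem_Ioc.1 (Finset.mem_filter.1 h2).1
  have l1 : 0 ≤ Real.log w.1 := Real.log_natCast_nonneg _
  have l2 : 0 ≤ Real.log w.2 := Real.log_natCast_nonneg _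
  have u1 : Real.log w.1 ≤ Real.log (2 * x) := by
    refine Real.log_le_log (by exact_mod_cast (by omega : 0 < w.1)) ?_
    exact_mod_cast h1b
  have u2 : Real.log w.2 ≤ Real.log (2 * x) := by
    refine Real.log_le_log (by exact_mod_cast (by omega : 0 < w.2)) ?_
    exact_mod_cast h2b
  have hcard : #((Ico (0 : ℤ) (32 * (x : ℤ) ^ 2)).filter fun z : ℤ =>
      (z < 8 * (w.1 : ℤ) ^ 2 ∧ 8 * (w.1 : ℤ) ^ 2 ≤ z + B) ∧
      (z < 8 * (w.2 : ℤ) ^ 2 ∧ 8 * (w.2 : ℤ) ^ 2 ≤ z + B)) ≤ B := by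
    have hs : ((Ico (0 : ℤ) (32 * (x : ℤ) ^ 2)).filter fun z : ℤ =>
        (z < 8 * (w.1 : ℤ) ^ 2 ∧ 8 * (w.1 : ℤ) ^ 2 ≤ z + B) ∧
        (z < 8 * (w.2 : ℤ) ^ 2 ∧ 8 * (w.2 : ℤ) ^ 2 ≤ z + B)) ⊆
        Ico (8 * (w.1 : ℤ) ^ 2 - B) (8 * (w.1 : ℤ) ^ 2) := by
      intro z hz
      obtain ⟨_, ⟨a1, a2⟩, _⟩ := Finset.mem_filter.1 hz
      exact Finset.mem_Ico.2 ⟨by linarith, a1⟩
    refine (Finset.card_le_card hs).trans ?_
    rw [Int.card_Ico]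
    have : 8 * (w.1 : ℤ) ^ 2 - (8 * (w.1 : ℤ) ^ 2 - B) = B := by ring
    rw [this, Int.toNat_natCast]
  refine ⟨?_, ?_, ?_⟩
  · unfold MOM_c
    positivity
  · unfold MOM_c
    have h3 : (#((Ico (0 : ℤ) (32 * (x : ℤ) ^ 2)).filter fun z : ℤ =>
      (z < 8 * (w.1 : ℤ) ^ 2 ∧ 8 * (w.1 : ℤ) ^ 2 ≤ z + B) ∧
      (z < 8 * (w.2 : ℤ) ^ 2 ∧ 8 * (w.2 : ℤ) ^ 2 ≤ z + B)) : ℝ) ≤ B := by
      exact_mod_cast hcard
    have h4 : Real.log w.1 * Real.log w.2 ≤ Real.log (2 * x) ^ 2 := by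
      rw [sq]
      exact mul_le_mul u1 u2 l2 (l1.trans u1)
    exact mul_le_mul h4 h3 (by positivity) (by positivity)
  · intro hn
    unfold MOM_c
    have h0 : ((Ico (0 : ℤ) (32 * (x : ℤ) ^ 2)).filter fun z : ℤ =>
        (z < 8 * (w.1 : ℤ) ^ 2 ∧ 8 * (w.1 : ℤ) ^ 2 ≤ z + B) ∧
        (z < 8 * (w.2 : ℤ) ^ 2 ∧ 8 * (w.2 : ℤ) ^ 2 ≤ z + B)) = ∅ := by
      refine Finset.filter_eq_empty_iff.2 fun z _ hz => hn ?_
      obtain ⟨⟨a1, a2⟩, ⟨b1, b2⟩⟩ := hz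
      rw [abs_lt]
      constructor <;> linarith
    rw [h0, Finset.card_empty, Nat.cast_zero, mul_zero]

theorem MOM : MOM_stmt := by
  intro k x B hk hx hB _
  have hc : ∀ w : Fin k → ℕ × ℕ, Continuous fun α : ℝ =>
      ∏ i, (((MOM_c x B (w i) : ℝ) : ℂ) * ee ((MOM_d (w i) : ℝ) * α)) := by
    intro w
    unfold ee
    fun_prop
  have h1 : ((∫ α in (0 : ℝ)..1, UT x B α ^ k : ℝ) : ℂ) =
      ∑ w ∈ Fintype.piFinset fun _ : Fin k => (Pr x) ×ˢ (Pr x),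
        ((∏ i, MOM_c x B (w i) : ℝ) : ℂ) * (if ∑ i, MOM_d (w i) = 0 then 1 else 0) := by
    rw [← intervalIntegral.integral_ofReal]
    have e1 : ∀ α : ℝ, ((UT x B α ^ k : ℝ) : ℂ) =
        ∑ w ∈ Fintype.piFinset fun _ : Fin k => (Pr x) ×ˢ (Pr x),
          ∏ i, (((MOM_c x B (w i) : ℝ) : ℂ) * ee ((MOM_d (w i) : ℝ) * α)) := by
      intro α
      rw [Complex.ofReal_pow, MOM_UT]
      have e3 := Finset.prod_univ_sum (fun _ : Fin k => (Pr x) ×ˢ (Pr x))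
        (fun (_ : Fin k) (w : ℕ × ℕ) => ((MOM_c x B w : ℝ) : ℂ) * ee ((MOM_d w : ℝ) * α))
      rw [Finset.prod_const, Finset.card_univ, Fintype.card_fin] at e3
      exact e3
    simp_rw [e1]
    rw [intervalIntegral.integral_finsetSum]
    · refine Finset.sum_congr rfl fun w _ => ?_
      have e2 : ∀ α : ℝ, ∏ i, (((MOM_c x B (w i) : ℝ) : ℂ) * ee ((MOM_d (w i) : ℝ) * α)) =
          ((∏ i, MOM_c x B (w i) : ℝ) : ℂ) * ee (((∑ i, MOM_d (w i) : ℤ) : ℝ) * α) := by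
        intro α
        rw [Finset.prod_mul_distrib, Complex.ofReal_prod]
        congr 1
        unfold ee
        rw [← Complex.exp_sum]
        congr 1
        push_cast
        simp only [Finset.mul_sum, Finset.sum_mul]
      simp_rw [e2]
      rw [intervalIntegral.integral_const_mul, MOM_int]
    · intro w _
      exact (hc w).intervalIntegrable _ _
  have h2 : ∫ α in (0 : ℝ)..1, UT x B α ^ k =
      ∑ w ∈ Fintype.piFinset fun _ : Fin k => (Pr x) ×ˢ (Pr x),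
        (∏ i, MOM_c x B (w i)) * (if ∑ i, MOM_d (w i) = 0 then 1 else 0) := by
    have h3 : ((∫ α in (0 : ℝ)..1, UT x B α ^ k : ℝ) : ℂ) =
        ((∑ w ∈ Fintype.piFinset fun _ : Fin k => (Pr x) ×ˢ (Pr x),
          (∏ i, MOM_c x B (w i)) * (if ∑ i, MOM_d (w i) = 0 then 1 else 0) : ℝ) : ℂ) := by
      rw [h1]
      push_cast
      refine Finset.sum_congr rfl fun w _ => ?_
      congr 1
      split_ifs <;> simp
    exact_mod_cast h3
  rw [h2]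
  set S : Finset (Fin k → ℕ × ℕ) := (Fintype.piFinset fun _ : Fin k => (Pr x) ×ˢ (Pr x)).filter
    fun w : Fin k → ℕ × ℕ =>
      (∀ i, |8 * ((w i).1 : ℤ) ^ 2 - 8 * ((w i).2 : ℤ) ^ 2| < (B : ℤ)) ∧
        ∑ i, (((w i).1 : ℤ) ^ 2 - ((w i).2 : ℤ) ^ 2) = 0 with hS
  have h4 : ∀ w ∈ Fintype.piFinset fun _ : Fin k => (Pr x) ×ˢ (Pr x),
      (∏ i, MOM_c x B (w i)) * (if ∑ i, MOM_d (w i) = 0 then (1 : ℝ) else 0) ≤
        if (∀ i, |8 * ((w i).1 : ℤ) ^ 2 - 8 * ((w i).2 : ℤ) ^ 2| < (B : ℤ)) ∧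
          ∑ i, (((w i).1 : ℤ) ^ 2 - ((w i).2 : ℤ) ^ 2) = 0 then
          (Real.log (2 * x) ^ 2 * B) ^ k else 0 := by
    intro w hw
    have hw' := Fintype.mem_piFinset.1 hw
    have hdsum : ∑ i, MOM_d (w i) = 8 * ∑ i, (((w i).1 : ℤ) ^ 2 - ((w i).2 : ℤ) ^ 2) := by
      rw [Finset.mul_sum]
      refine Finset.sum_congr rfl fun i _ => ?_
      unfold MOM_d
      ring
    by_cases hall : ∀ i, |8 * ((w i).1 : ℤ) ^ 2 - 8 * ((w i).2 : ℤ) ^ 2| < (B : ℤ)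
    · by_cases h0 : ∑ i, (((w i).1 : ℤ) ^ 2 - ((w i).2 : ℤ) ^ 2) = 0
      · have hd0 : ∑ i, MOM_d (w i) = 0 := by rw [hdsum, h0, mul_zero]
        rw [if_pos hd0, if_pos ⟨hall, h0⟩, mul_one]
        have := Finset.prod_le_prod (s := (Finset.univ : Finset (Fin k)))
          (f := fun i => MOM_c x B (w i)) (g := fun _ => Real.log (2 * x) ^ 2 * (B : ℝ))
          (fun i _ => (MOM_c_le x B hx (w i) (hw' i)).1)
          (fun i _ => (MOM_c_le x B hx (w i) (hw' i)).2.1)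
        rwa [Finset.prod_const, Finset.card_univ, Fintype.card_fin] at this
      · have hd0 : ¬ ∑ i, MOM_d (w i) = 0 := by
          rw [hdsum]
          intro h
          rcases mul_eq_zero.1 h with h | h
          · norm_num at h
          · exact h0 h
        rw [if_neg hd0, mul_zero, if_neg (fun h => h0 h.2)]
    · rw [if_neg (c := _ ∧ _) (fun h => hall h.1)]
      push Not at hall
      obtain ⟨i, hi⟩ := hall
      have : ∏ i, MOM_c x B (w i) = 0 :=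
        Finset.prod_eq_zero (Finset.mem_univ i)
          ((MOM_c_le x B hx (w i) (hw' i)).2.2 (not_lt.2 hi))
      rw [this, zero_mul]
  refine (Finset.sum_le_sum h4).trans ?_
  rw [← Finset.sum_filter, Finset.sum_const, nsmul_eq_mul]
  have h5 : S.card ≤ ZK k x B := by
    unfold ZK
    refine Finset.card_le_card ?_
    intro w hw
    obtain ⟨a1, a2⟩ := Finset.mem_filter.1 hw
    refine Finset.mem_filter.2 ⟨Fintype.mem_piFinset.2 fun i => ?_, a2⟩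
    have := Fintype.mem_piFinset.1 a1 i
    obtain ⟨b1, b2⟩ := Finset.mem_product.1 this
    unfold Pr at b1 b2
    exact Finset.mem_product.2 ⟨(Finset.mem_filter.1 b1).1, (Finset.mem_filter.1 b2).1⟩
  have h6 : (S.card : ℝ) ≤ ZK k x B := by exact_mod_cast h5
  have h7 : (0 : ℝ) ≤ (Real.log (2 * x) ^ 2 * B) ^ k := by positivity
  calc (S.card : ℝ) * (Real.log (2 * x) ^ 2 * B) ^ k
      ≤ ZK k x B * (Real.log (2 * x) ^ 2 * B) ^ k := mul_le_mul_of_nonneg_right h6 h7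
    _ = Real.log (2 * x) ^ (2 * k) * (B : ℝ) ^ k * ZK k x B := by
        rw [mul_pow, ← pow_mul]
        ring

end Pool.Agent.BQ
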